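import Pool.Agent.K6.H89.RS.Hall

/-!
# One-relator groups with a basic commutator relator are residually solvable

Imported definitions (`Pool/Agent/K6/H89/RS/Step.lean` and `Hall.lean`):

* `Br Z` : formal commutator expressions, `Br.gen z` for a letter and `Br.com a b` for `[a, b]`;
* `Br.ev f c` : the value of the expression `c` in a group, with `[a, b] = a⁻¹ b⁻¹ a b`;
* `Br.wt c` : the weight of `c` (number of letters, with multiplicity).
-/

set_option autoImplicit false

namespace Pool.Agent.Results.MP_3f0e2e_al.BasicCommutator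

open Pool.Agent.K6.H89 Pool.Agent.K6.H89.Br

/-- An admissible choice of basic commutators (M. Hall) on the letters `x_1 < … < x_n`:
the set `B` of all basic commutators (as formal expressions) and their total order `lt`. -/
structure HallSystem (n : ℕ) where
  /-- the basic commutators -/
  B : Set (Br (Fin n))
  /-- the order -/
  lt : Br (Fin n) → Br (Fin n) → Prop
  irrefl : ∀ a ∈ B, ¬ lt a a
  trans : ∀ a ∈ B, ∀ b ∈ B, ∀ c ∈ B, lt a b → lt b c → lt a c
  total : ∀ a ∈ B, ∀ b ∈ B, a ≠ b → lt a b ∨ lt b a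
  /-- the basic commutators of weight one are the letters … -/
  gen_mem : ∀ i, gen i ∈ B
  /-- … in their given order -/
  gen_lt : ∀ i j, lt (gen i) (gen j) ↔ i < j
  /-- smaller weight comes first -/
  wt_lt : ∀ a ∈ B, ∀ b ∈ B, wt a < wt b → lt a b
  /-- `[a, b]` is basic iff `a, b` are basic, `a > b`, and `b ≥ t` when `a = [s, t]` -/
  com_mem : ∀ a b, com a b ∈ B ↔
    a ∈ B ∧ b ∈ B ∧ lt b a ∧ ∀ s t, a = com s t → (b = t ∨ lt t b)

/-- Residual solvability: every nontrivial element survives in a solvable quotient. -/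
def ResiduallySolvable (G : Type) [Group G] : Prop :=
  ∀ g : G, g ≠ 1 → ∃ (Q : Type) (_ : Group Q) (f : G →* Q),
    Function.Surjective f ∧ Group.IsSolvable Q ∧ f g ≠ 1

theorem residuallySolvable_of_RS {G : Type} [Group G] (h : RS G) : ResiduallySolvable G := by
  intro g hg
  obtain ⟨m, hm⟩ := h g hg
  refine ⟨G ⧸ derivedSeries G m, inferInstance, QuotientGroup.mk' _,
    QuotientGroup.mk'_surjective _, solv_quot m, ?_⟩
  rw [QuotientGroup.mk'_apply, Ne, QuotientGroup.eq_one_iff]
  exact hm

section

variable {n : ℕ} (S : HallSystem n)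

/-- the partial order given by the weight and the order of the basic commutators -/
def po (a b : Br (Fin n)) : Prop :=
  a = b ∨ wt a < wt b ∨ (wt a = wt b ∧ a ∈ S.B ∧ b ∈ S.B ∧ S.lt a b)

theorem po_partial : IsPartialOrder (Br (Fin n)) (po S) where
  refl a := Or.inl rfl
  trans a b c := by
    rintro (rfl | h | ⟨h1, h2, h3, h4⟩) (rfl | h' | ⟨h1', h2', h3', h4'⟩)
    · exact Or.inl rfl
    · exact Or.inr (Or.inl h')
    · exact Or.inr (Or.inr ⟨h1', h2', h3', h4'⟩)
    · exact Or.inr (Or.inl h)
    · exact Or.inr (Or.inl (h.trans h'))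
    · exact Or.inr (Or.inl (h1' ▸ h))
    · exact Or.inr (Or.inr ⟨h1, h2, h3, h4⟩)
    · exact Or.inr (Or.inl (h1 ▸ h'))
    · exact Or.inr (Or.inr ⟨h1.trans h1', h2, h3', S.trans _ h2 _ h3 _ h3' h4 h4'⟩)
  antisymm a b := by
    rintro (h | h | ⟨h1, h2, h3, h4⟩) (h' | h' | ⟨h1', h2', h3', h4'⟩)
    · exact h
    · exact h
    · exact h
    · exact h'.symm
    · omega
    · omega
    · exact h'.symm
    · omega
    · exact absurd (S.trans _ h2 _ h3 _ h2 h4 h4') (S.irrefl _ h2)

theorem exists_ord : ∃ lt : Br (Fin n) → Br (Fin n) → Prop, Ord lt ∧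
    ∀ a ∈ S.B, ∀ b ∈ S.B, S.lt a b → lt a b := by
  have hp := po_partial S
  obtain ⟨s, hs, hle⟩ := extend_partialOrder (po S)
  have hsr : ∀ a b, s a b → s b a → a = b := fun a b => hs.antisymm a b
  refine ⟨fun a b => s a b ∧ a ≠ b, ⟨fun a h => h.2 rfl, ?_, ?_, ?_⟩, ?_⟩
  · rintro a b c ⟨h1, h2⟩ ⟨h3, h4⟩
    refine ⟨hs.trans _ _ _ h1 h3, ?_⟩
    rintro rfl
    exact h2 (hsr _ _ h1 h3)
  · intro a b hab
    rcases hs.total a b with h | h
    · exact Or.inl ⟨h, hab⟩
    · exact Or.inr ⟨h, hab.symm⟩
  · intro a b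
    have h1 := wt_pos a
    refine ⟨hle _ _ (Or.inr (Or.inl ?_)), ?_⟩
    · simp only [wt]
      omega
    · intro e
      have := congrArg wt e
      simp only [wt] at this
      omega
  · intro a ha b hb hab
    have hne : a ≠ b := by
      rintro rfl
      exact S.irrefl _ ha hab
    refine ⟨hle _ _ (Or.inr ?_), hne⟩
    rcases lt_trichotomy (wt a) (wt b) with h | h | h
    · exact Or.inl h
    · exact Or.inr ⟨h, ha, hb, hab⟩
    · exact absurd (S.trans _ ha _ hb _ ha hab (S.wt_lt _ hb _ ha h)) (S.irrefl _ ha)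

theorem bas_of_mem {lt : Br (Fin n) → Br (Fin n) → Prop} (h : Ord lt)
    (hlt : ∀ a ∈ S.B, ∀ b ∈ S.B, S.lt a b → lt a b) (c : Br (Fin n)) (hc : c ∈ S.B) :
    bas lt c := by
  induction c with
  | gen i => trivial
  | com a b iha ihb =>
    obtain ⟨ha, hb, hab, hr⟩ := (S.com_mem a b).mp hc
    refine ⟨iha ha, ihb hb, hlt _ hb _ ha hab, ?_⟩
    cases a with
    | gen i => trivial
    | com s t =>
      show ¬ lt b t
      rcases hr s t rfl with h1 | h1
      · rw [h1]
        exact h.irrefl _
      · have ht : t ∈ S.B := ((S.com_mem s t).mp ha).2.1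
        intro h2
        exact h.irrefl _ (h.trans _ _ _ h2 (hlt _ ht _ hb h1))

end

/-- For every `n`, every admissible ordering and every basic commutator `c`, the one-relator group
`⟨x_1, …, x_n | c⟩` is residually solvable. -/
theorem result (n : ℕ) (S : HallSystem n) (c : Br (Fin n)) (hc : c ∈ S.B) :
    ResiduallySolvable
      (PresentedGroup ({ev FreeGroup.of c} : Set (FreeGroup (Fin n)))) := by
  obtain ⟨lt, h, hlt⟩ := exists_ord S
  exact residuallySolvable_of_RS
    (elim_of_bas (wt c) lt h c le_rfl (bas_of_mem S h hlt c hc)).rs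

/-! ### Admissible systems exist (not part of `result`) -/

/-- an injective code -/
def code {n : ℕ} : Br (Fin n) → ℕ
  | gen i => 2 * i
  | com a b => 2 * Nat.pair (code a) (code b) + 1

theorem code_inj {n : ℕ} : ∀ a b : Br (Fin n), code a = code b → a = b := by
  intro a
  induction a with
  | gen i =>
    intro b h
    cases b with
    | gen j =>
      simp only [code] at h
      rw [Fin.ext (by omega : (i : ℕ) = j)]
    | com b₁ b₂ =>
      simp only [code] at h
      omega
  | com a₁ a₂ ih₁ ih₂ =>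
    intro b h
    cases b with
    | gen j =>
      simp only [code] at h
      omega
    | com b₁ b₂ =>
      simp only [code] at h
      have h1 : Nat.pair (code a₁) (code a₂) = Nat.pair (code b₁) (code b₂) := by omega
      rw [Nat.pair_eq_pair] at h1
      rw [ih₁ _ h1.1, ih₂ _ h1.2]

theorem hallSystem_exists (n : ℕ) : Nonempty (HallSystem n) := by
  let lt : Br (Fin n) → Br (Fin n) → Prop := fun a b =>
    wt a < wt b ∨ (wt a = wt b ∧ code a < code b)
  let bs : Br (Fin n) → Prop := fun c => Br.rec (motive := fun _ => Prop) (fun _ => True)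
    (fun a b ha hb => ha ∧ hb ∧ lt b a ∧ ∀ s t, a = com s t → (b = t ∨ lt t b)) c
  refine ⟨⟨{c | bs c}, lt, ?_, ?_, ?_, ?_, ?_, ?_, ?_⟩⟩
  · intro a _ h
    rcases h with h | h
    · omega
    · omega
  · intro a _ b _ c _ h1 h2
    rcases h1 with h1 | h1 <;> rcases h2 with h2 | h2
    · exact Or.inl (by omega)
    · exact Or.inl (by omega)
    · exact Or.inl (by omega)
    · exact Or.inr (by omega)
  · intro a _ b _ hab
    have hc : code a ≠ code b := fun h => hab (code_inj a b h)
    rcases lt_trichotomy (wt a) (wt b) with h | h | h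
    · exact Or.inl (Or.inl h)
    · rcases lt_or_gt_of_ne hc with h' | h'
      · exact Or.inl (Or.inr ⟨h, h'⟩)
      · exact Or.inr (Or.inr ⟨h.symm, h'⟩)
    · exact Or.inr (Or.inl h)
  · intro i
    exact trivial
  · intro i j
    constructor
    · rintro (h | ⟨_, h⟩)
      · simp only [wt] at h
        omega
      · simp only [code] at h
        exact Fin.lt_def.mpr (by omega)
    · intro h
      have := Fin.lt_def.mp h
      exact Or.inr ⟨rfl, by simp only [code]; omega⟩
  · intro a _ b _ h
    exact Or.inl h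
  · intro a b
    exact Iff.rfl

end Pool.Agent.Results.MP_3f0e2e_al.BasicCommutator
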